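import Mathlib

set_option autoImplicit false

namespace Pool.Agent.Helper60.CrossFree

/-- points of the plane -/
abbrev Pt := ℝ × ℝ

/-- orientation determinant -/
def det (p q r : Pt) : ℝ := (q.1 - p.1) * (r.2 - p.2) - (q.2 - p.2) * (r.1 - p.1)

theorem det_swap12 (p q r : Pt) : det q p r = -det p q r := by unfold det; ring
theorem det_swap23 (p q r : Pt) : det p r q = -det p q r := by unfold det; ring
theorem det_swap13 (p q r : Pt) : det r q p = -det p q r := by unfold det; ring
theorem det_rot (p q r : Pt) : det q r p = det p q r := by unfold det; ring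
theorem det_self12 (p r : Pt) : det p p r = 0 := by unfold det; ring
theorem det_self13 (p q : Pt) : det p q p = 0 := by unfold det; ring
theorem det_self23 (p q : Pt) : det p q q = 0 := by unfold det; ring

/-- the determinant is affine in the last argument -/
theorem det_affine (a b u v : Pt) (s t : ℝ) (h : s + t = 1) :
    det a b (s • u + t • v) = s * det a b u + t * det a b v := by
  have ht : t = 1 - s := by linarith
  subst ht
  simp only [det, Prod.fst_add, Prod.snd_add, Prod.smul_fst, Prod.smul_snd, smul_eq_mul]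
  ring

theorem collinear_of_det {p q r : Pt} (h : det p q r = 0) : Collinear ℝ ({p, q, r} : Set Pt) := by
  by_cases hpq : p = q
  · subst hpq
    have : ({p, p, r} : Set Pt) = {p, r} := by simp
    rw [this]
    exact collinear_pair ℝ p r
  · rw [collinear_iff_of_mem (p₀ := p) (by simp)]
    refine ⟨q - p, ?_⟩
    have hne : q.1 - p.1 ≠ 0 ∨ q.2 - p.2 ≠ 0 := by
      by_contra hcon
      push Not at hcon
      exact hpq (Prod.ext (by linarith [hcon.1]) (by linarith [hcon.2]))
    have key : ∃ t : ℝ, r = t • (q - p) +ᵥ p := by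
      unfold det at h
      rcases hne with h1 | h2
      · refine ⟨(r.1 - p.1) / (q.1 - p.1), ?_⟩
        apply Prod.ext
        · simp only [vadd_eq_add, Prod.fst_add, Prod.smul_fst, Prod.fst_sub, smul_eq_mul]
          field_simp
          ring
        · simp only [vadd_eq_add, Prod.snd_add, Prod.smul_snd, Prod.snd_sub, smul_eq_mul]
          field_simp
          linarith
      · refine ⟨(r.2 - p.2) / (q.2 - p.2), ?_⟩
        apply Prod.ext
        · simp only [vadd_eq_add, Prod.fst_add, Prod.smul_fst, Prod.fst_sub, smul_eq_mul]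
          field_simp
          linarith
        · simp only [vadd_eq_add, Prod.snd_add, Prod.smul_snd, Prod.snd_sub, smul_eq_mul]
          field_simp
          ring
    intro x hx
    simp only [Set.mem_insert_iff, Set.mem_singleton_iff] at hx
    rcases hx with rfl | rfl | rfl
    · exact ⟨0, by simp⟩
    · exact ⟨1, by simp⟩
    · exact key

/-- the segments `pq` and `rs` have a common point that is not an endpoint of both -/
def Cr (p q r s : Pt) : Prop :=
  ∃ x, x ∈ segment ℝ p q ∧ x ∈ segment ℝ r s ∧ ¬((x = p ∨ x = q) ∧ (x = r ∨ x = s))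

theorem Cr_symm {p q r s : Pt} (h : Cr p q r s) : Cr r s p q := by
  obtain ⟨x, h1, h2, h3⟩ := h
  exact ⟨x, h2, h1, fun h => h3 ⟨h.2, h.1⟩⟩

theorem Cr_swap1 {p q r s : Pt} (h : Cr p q r s) : Cr q p r s := by
  obtain ⟨x, h1, h2, h3⟩ := h
  exact ⟨x, by rwa [segment_symm], h2, fun h => h3 ⟨h.1.symm, h.2⟩⟩

theorem Cr_swap2 {p q r s : Pt} (h : Cr p q r s) : Cr p q s r := by
  obtain ⟨x, h1, h2, h3⟩ := h
  exact ⟨x, h1, by rwa [segment_symm], fun h => h3 ⟨h.1, h.2.symm⟩⟩

/-- two segments with a common endpoint do not cross in general position -/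
theorem nc_same {p q r : Pt} (h : det p q r ≠ 0) : ¬ Cr p q p r := by
  rintro ⟨x, ⟨a, b, ha, hb, hab, rfl⟩, ⟨c, d, hc, hd, hcd, hx⟩, h3⟩
  apply h3
  have e1 : det p q (a • p + b • q) = 0 := by
    rw [det_affine _ _ _ _ _ _ hab, det_self13, det_self23]; ring
  rw [← hx, det_affine _ _ _ _ _ _ hcd, det_self13] at e1
  have hd0 : d = 0 := by
    have : d * det p q r = 0 := by linarith
    rcases mul_eq_zero.mp this with h' | h'
    · exact h'
    · exact absurd h' h
  have hc1 : c = 1 := by linarith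
  have : a • p + b • q = p := by
    rw [← hx, hd0, hc1]; simp
  exact ⟨Or.inl this, Or.inl this⟩

/-- strict separation by the line `ab` -/
theorem nc_strict {a b p q r s : Pt} (hp : 0 < det a b p) (hq : 0 < det a b q)
    (hr : det a b r ≤ 0) (hs : det a b s ≤ 0) : ¬ Cr p q r s := by
  rintro ⟨x, ⟨u, v, hu, hv, huv, rfl⟩, ⟨c, d, hc, hd, hcd, hx⟩, -⟩
  have e1 : 0 < det a b (u • p + v • q) := by
    rw [det_affine _ _ _ _ _ _ huv]
    rcases eq_or_lt_of_le hu with h0 | h0
    · have : v = 1 := by linarith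
      rw [← h0, this]; linarith
    · have : 0 < u * det a b p := mul_pos h0 hp
      have : 0 ≤ v * det a b q := mul_nonneg hv hq.le
      linarith
  rw [← hx, det_affine _ _ _ _ _ _ hcd] at e1
  have : c * det a b r ≤ 0 := mul_nonpos_of_nonneg_of_nonpos hc hr
  have : d * det a b s ≤ 0 := mul_nonpos_of_nonneg_of_nonpos hd hs
  linarith

/-- strict separation, other sign -/
theorem nc_strict' {a b p q r s : Pt} (hp : det a b p < 0) (hq : det a b q < 0)
    (hr : 0 ≤ det a b r) (hs : 0 ≤ det a b s) : ¬ Cr p q r s := by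
  apply nc_strict (a := b) (b := a)
  · rw [det_swap12]; linarith
  · rw [det_swap12]; linarith
  · rw [det_swap12]; linarith
  · rw [det_swap12]; linarith

/-- segments from `a` and `b` into opposite open sides of the line `ab` -/
theorem nc_touch {a b u w : Pt} (hab : a ≠ b) (hu : 0 < det a b u) (hw : det a b w < 0) :
    ¬ Cr a u b w := by
  rintro ⟨x, ⟨s, t, hs, ht, hst, rfl⟩, ⟨c, d, hc, hd, hcd, hx⟩, -⟩
  have e1 : det a b (s • a + t • u) = t * det a b u := by
    rw [det_affine _ _ _ _ _ _ hst, det_self13]; ring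
  have e2 : det a b (c • b + d • w) = d * det a b w := by
    rw [det_affine _ _ _ _ _ _ hcd, det_self23]; ring
  rw [← hx, e2] at e1
  have h1 : 0 ≤ t * det a b u := mul_nonneg ht hu.le
  have h2 : d * det a b w ≤ 0 := mul_nonpos_of_nonneg_of_nonpos hd hw.le
  have h3 : t * det a b u = 0 := by linarith
  have h4 : d * det a b w = 0 := by linarith
  have ht0 : t = 0 := by
    rcases mul_eq_zero.mp h3 with h | h
    · exact h
    · linarith
  have hd0 : d = 0 := by
    rcases mul_eq_zero.mp h4 with h | h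
    · exact h
    · linarith
  have hs1 : s = 1 := by linarith
  have hc1 : c = 1 := by linarith
  rw [ht0, hd0, hs1, hc1] at hx
  simp at hx
  exact hab hx.symm

/-- segments from `b` and `a` into opposite open sides of the line `ab` -/
theorem nc_touch2 {a b u w : Pt} (hab : a ≠ b) (hu : 0 < det a b u) (hw : det a b w < 0) :
    ¬ Cr b u a w := by
  rintro ⟨x, ⟨s, t, hs, ht, hst, rfl⟩, ⟨c, d, hc, hd, hcd, hx⟩, -⟩
  have e1 : det a b (s • b + t • u) = t * det a b u := by
    rw [det_affine _ _ _ _ _ _ hst, det_self23]; ring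
  have e2 : det a b (c • a + d • w) = d * det a b w := by
    rw [det_affine _ _ _ _ _ _ hcd, det_self13]; ring
  rw [← hx, e2] at e1
  have h1 : 0 ≤ t * det a b u := mul_nonneg ht hu.le
  have h2 : d * det a b w ≤ 0 := mul_nonpos_of_nonneg_of_nonpos hd hw.le
  have h3 : t * det a b u = 0 := by linarith
  have h4 : d * det a b w = 0 := by linarith
  have ht0 : t = 0 := by
    rcases mul_eq_zero.mp h3 with h | h
    · exact h
    · linarith
  have hd0 : d = 0 := by
    rcases mul_eq_zero.mp h4 with h | h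
    · exact h
    · linarith
  have hs1 : s = 1 := by linarith
  have hc1 : c = 1 := by linarith
  rw [ht0, hd0, hs1, hc1] at hx
  simp at hx
  exact hab hx

/-- separation by a vertical line -/
theorem nc_vert {p q r s : Pt} (h1 : p.1 < r.1) (h2 : p.1 < s.1) (h3 : q.1 < r.1)
    (h4 : q.1 < s.1) : ¬ Cr p q r s := by
  rintro ⟨x, ⟨u, v, hu, hv, huv, rfl⟩, ⟨c, d, hc, hd, hcd, hx⟩, -⟩
  have e := congrArg Prod.fst hx
  simp only [Prod.fst_add, Prod.smul_fst, smul_eq_mul] at e
  have hu' : u = 1 - v := by linarith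
  have hc' : c = 1 - d := by linarith
  set M := max p.1 q.1
  set N := min r.1 s.1
  have hMN : M < N := by
    simp only [M, N, max_lt_iff, lt_min_iff]
    exact ⟨⟨h1, h3⟩, h2, h4⟩
  have e1 : u * p.1 + v * q.1 ≤ M := by
    have a1 : p.1 ≤ M := le_max_left _ _
    have a2 : q.1 ≤ M := le_max_right _ _
    have b1 := mul_le_mul_of_nonneg_left a1 hu
    have b2 := mul_le_mul_of_nonneg_left a2 hv
    have b3 : u * M + v * M = M := by rw [← add_mul, huv, one_mul]
    linarith
  have e2 : N ≤ c * r.1 + d * s.1 := by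
    have a1 : N ≤ r.1 := min_le_left _ _
    have a2 : N ≤ s.1 := min_le_right _ _
    have b1 := mul_le_mul_of_nonneg_left a1 hc
    have b2 := mul_le_mul_of_nonneg_left a2 hd
    have b3 : c * N + d * N = N := by rw [← add_mul, hcd, one_mul]
    linarith
  linarith

/-- a finite set of points is in general position (determinant form) -/
def GP (P : Finset Pt) : Prop :=
  ∀ p ∈ P, ∀ q ∈ P, ∀ r ∈ P, p ≠ q → p ≠ r → q ≠ r → det p q r ≠ 0

/-- a family of (ordered) edges without crossings -/
def NonCr (G : Pt → Pt → Prop) : Prop :=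
  ∀ u v u' v', G u v → G u' v' → s(u, v) = s(u', v') ∨ ¬ Cr u v u' v'

/-- the complete geometric graph on `P` can be covered by `k` crossing-free families -/
def Cov (P : Finset Pt) (k : ℕ) : Prop :=
  ∃ G : Fin k → Pt → Pt → Prop, (∀ i, NonCr (G i)) ∧
    ∀ u ∈ P, ∀ v ∈ P, u ≠ v → ∃ i, G i u v ∨ G i v u

theorem Cov_of_fintype {P : Finset Pt} {ι : Type*} [Fintype ι] (G : ι → Pt → Pt → Prop)
    (h1 : ∀ i, NonCr (G i)) (h2 : ∀ u ∈ P, ∀ v ∈ P, u ≠ v → ∃ i, G i u v ∨ G i v u) :
    Cov P (Fintype.card ι) := by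
  refine ⟨fun i => G ((Fintype.equivFin ι).symm i), fun i => h1 _, fun u hu v hv huv => ?_⟩
  obtain ⟨i, hi⟩ := h2 u hu v hv huv
  exact ⟨Fintype.equivFin ι i, by simpa using hi⟩

/-- stars with the same centre -/
theorem same_centre {P : Finset Pt} (hP : GP P) {a u w : Pt} (ha : a ∈ P) (hu : u ∈ P)
    (hw : w ∈ P) (hau : a ≠ u) (haw : a ≠ w) : s(a, u) = s(a, w) ∨ ¬ Cr a u a w := by
  by_cases h : u = w
  · left; rw [h]
  · right; exact nc_same (hP a ha u hu w hw hau haw h)

/-- adding vertices one at a time: a point set `P` with a subset `U` covered by `k` families is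
covered by `k + (|P| - |U|)` families -/
theorem Cov_extend {P U : Finset Pt} (hP : GP P) (hU : U ⊆ P) {k : ℕ} (h : Cov U k) :
    Cov P (k + (P.card - U.card)) := by
  classical
  obtain ⟨G, hG1, hG2⟩ := h
  have hcard : Fintype.card (Fin k ⊕ {x // x ∈ P \ U}) = k + (P.card - U.card) := by
    rw [Fintype.card_sum, Fintype.card_fin, Fintype.card_coe, Finset.card_sdiff_of_subset hU]
  rw [← hcard]
  refine Cov_of_fintype (fun i u v => match i with
    | Sum.inl j => G j u v
    | Sum.inr x => u = x.1 ∧ v ∈ P ∧ u ≠ v) ?_ ?_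
  · rintro (j | ⟨x, hx⟩)
    · exact hG1 j
    · rintro u v u' v' ⟨rfl, hv, huv⟩ ⟨rfl, hv', huv'⟩
      exact same_centre hP (Finset.mem_sdiff.mp hx).1 hv hv' huv huv'
  · intro u hu v hv huv
    by_cases hu' : u ∈ U
    · by_cases hv' : v ∈ U
      · obtain ⟨i, hi⟩ := hG2 u hu' v hv' huv
        exact ⟨Sum.inl i, hi⟩
      · exact ⟨Sum.inr ⟨v, Finset.mem_sdiff.mpr ⟨hv, hv'⟩⟩, Or.inr ⟨rfl, hu, huv.symm⟩⟩
    · exact ⟨Sum.inr ⟨u, Finset.mem_sdiff.mpr ⟨hu, hu'⟩⟩, Or.inl ⟨rfl, hv, huv⟩⟩

end Pool.Agent.Helper60.CrossFree
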