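import Mathlib
import Pool.Agent.Helper60.CrossFree.Geo

set_option autoImplicit false

namespace Pool.Agent.Helper60.CrossFree

/-- The basic scheme: four indexed families of `m` points such that every line `p_i q_j` has all
`r` on its positive side and all `s` on its negative side, the pairs `(p_i, q_i)` being ordered
by tangents, and such that the lines `r_i s_j` do not separate points of `p` nor of `q`.
Then `3 m` crossing-free families suffice. -/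
theorem scheme {m : ℕ} {P U : Finset Pt} (hP : GP P) (p q r s : Fin m → Pt)
    (hU : ∀ x ∈ U, (∃ i, x = p i) ∨ (∃ i, x = q i) ∨ (∃ i, x = r i) ∨ (∃ i, x = s i))
    (hp : ∀ i, p i ∈ P) (hq : ∀ i, q i ∈ P) (hr : ∀ i, r i ∈ P) (hs : ∀ i, s i ∈ P)
    (hpq : ∀ i j, (p i).1 < (q j).1)
    (htq : ∀ i j, i < j → 0 < det (p i) (q i) (q j))
    (htp : ∀ i j, i < j → det (p i) (q i) (p j) < 0)
    (hR : ∀ i j k, 0 < det (p i) (q j) (r k))
    (hS : ∀ i j k, det (p i) (q j) (s k) < 0)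
    (hrp : ∀ i j k l, 0 < det (r i) (s j) (p k) * det (r i) (s j) (p l))
    (hrq : ∀ i j k l, 0 < det (r i) (s j) (q k) * det (r i) (s j) (q l)) :
    Cov U (3 * m) := by
  have hcard : Fintype.card (Fin m ⊕ Fin m ⊕ Fin m) = 3 * m := by
    simp only [Fintype.card_sum, Fintype.card_fin]; ring
  rw [← hcard]
  have npq : ∀ i j, p i ≠ q j := fun i j h => by
    have := hpq i j; rw [h] at this; exact lt_irrefl _ this
  have npr : ∀ i j, p i ≠ r j := fun i j h => by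
    have := hR i i j; rw [← h, det_self13] at this; exact lt_irrefl _ this
  have nps : ∀ i j, p i ≠ s j := fun i j h => by
    have := hS i i j; rw [← h, det_self13] at this; exact lt_irrefl _ this
  have nqr : ∀ i j, q i ≠ r j := fun i j h => by
    have := hR i i j; rw [← h, det_self23] at this; exact lt_irrefl _ this
  have nqs : ∀ i j, q i ≠ s j := fun i j h => by
    have := hS i i j; rw [← h, det_self23] at this; exact lt_irrefl _ this
  have nrs : ∀ i j, r i ≠ s j := fun i j h => by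
    have h1 := hR i i i; have h2 := hS i i j; rw [← h] at h2; linarith
  refine Cov_of_fintype (fun i u v => match i with
    | Sum.inl l => (u = p l ∧ ((∃ j, l ≤ j ∧ v = q j) ∨ ∃ j, v = r j)) ∨
        (u = q l ∧ ((∃ j, l < j ∧ v = p j) ∨ ∃ j, v = s j))
    | Sum.inr (Sum.inl l) => (u = r l ∧ u ≠ v ∧ ((∃ j, v = q j) ∨ ∃ j, v = r j)) ∨
        (u = s l ∧ u ≠ v ∧ ((∃ j, v = p j) ∨ ∃ j, v = s j))
    | Sum.inr (Sum.inr l) => (u = r l ∧ ∃ j, v = s j) ∨ (u = p l ∧ u ≠ v ∧ ∃ j, v = p j) ∨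
        (u = q l ∧ u ≠ v ∧ ∃ j, v = q j)) ?_ ?_
  · rintro (l | l | l)
    · -- the families `D_l`
      have key : ∀ v w, ((∃ j, l ≤ j ∧ v = q j) ∨ ∃ j, v = r j) →
          ((∃ j, l < j ∧ w = p j) ∨ ∃ j, w = s j) → ¬ Cr (p l) v (q l) w := by
        intro v w hv hw
        have hw' : det (p l) (q l) w < 0 ∧ w ∈ P := by
          rcases hw with ⟨j, hj, rfl⟩ | ⟨j, rfl⟩
          · exact ⟨htp l j hj, hp j⟩
          · exact ⟨hS l l j, hs j⟩
        have hv' : v = q l ∨ 0 < det (p l) (q l) v := by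
          rcases hv with ⟨j, hj, rfl⟩ | ⟨j, rfl⟩
          · rcases eq_or_lt_of_le hj with h | h
            · left; rw [h]
            · right; exact htq l j h
          · right; exact hR l l j
        rcases hv' with rfl | hv'
        · intro hc
          refine nc_same (p := q l) (q := p l) (r := w) ?_ (Cr_swap1 hc)
          rw [det_swap12]
          intro h0
          linarith [hw'.1]
        · exact nc_touch (npq l l) hv' hw'.1
      have memP1 : ∀ v, ((∃ j, l ≤ j ∧ v = q j) ∨ ∃ j, v = r j) → v ∈ P ∧ p l ≠ v := by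
        rintro v (⟨j, -, rfl⟩ | ⟨j, rfl⟩)
        · exact ⟨hq j, npq l j⟩
        · exact ⟨hr j, npr l j⟩
      have memP2 : ∀ v, ((∃ j, l < j ∧ v = p j) ∨ ∃ j, v = s j) → v ∈ P ∧ q l ≠ v := by
        rintro v (⟨j, -, rfl⟩ | ⟨j, rfl⟩)
        · exact ⟨hp j, (npq j l).symm⟩
        · exact ⟨hs j, nqs l j⟩
      rintro u v u' v' (⟨rfl, hv⟩ | ⟨rfl, hv⟩) (⟨rfl, hv'⟩ | ⟨rfl, hv'⟩)
      · exact same_centre hP (hp l) (memP1 v hv).1 (memP1 v' hv').1 (memP1 v hv).2 (memP1 v' hv').2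
      · right; exact key v v' hv hv'
      · right; exact fun hc => key v' v hv' hv (Cr_symm hc)
      · exact same_centre hP (hq l) (memP2 v hv).1 (memP2 v' hv').1 (memP2 v hv).2 (memP2 v' hv').2
    · -- the families centred at `r_l` and `s_l`
      have key : ∀ v w, ((∃ j, v = q j) ∨ ∃ j, v = r j) →
          ((∃ j, w = p j) ∨ ∃ j, w = s j) → ¬ Cr (r l) v (s l) w := by
        rintro v w (⟨j, rfl⟩ | ⟨j, rfl⟩) (⟨i, rfl⟩ | ⟨i, rfl⟩)
        · intro hc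
          exact nc_touch2 (npq i j) (hR i j l) (hS i j l) (Cr_swap2 (Cr_swap1 hc))
        · intro hc
          exact nc_strict' (hS l j l) (hS l j i) (hR l j l).le (det_self23 _ _).ge (Cr_symm hc)
        · intro hc
          exact nc_strict (hR i l l) (hR i l j) (hS i l l).le (det_self13 _ _).le hc
        · exact nc_strict (hR l l l) (hR l l j) (hS l l l).le (hS l l i).le
      have memP1 : ∀ v, ((∃ j, v = q j) ∨ ∃ j, v = r j) → v ∈ P := by
        rintro v (⟨j, rfl⟩ | ⟨j, rfl⟩)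
        · exact hq j
        · exact hr j
      have memP2 : ∀ v, ((∃ j, v = p j) ∨ ∃ j, v = s j) → v ∈ P := by
        rintro v (⟨j, rfl⟩ | ⟨j, rfl⟩)
        · exact hp j
        · exact hs j
      rintro u v u' v' (⟨rfl, hne, hv⟩ | ⟨rfl, hne, hv⟩) (⟨rfl, hne', hv'⟩ | ⟨rfl, hne', hv'⟩)
      · exact same_centre hP (hr l) (memP1 v hv) (memP1 v' hv') hne hne'
      · right; exact key v v' hv hv'
      · right; exact fun hc => key v' v hv' hv (Cr_symm hc)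
      · exact same_centre hP (hs l) (memP2 v hv) (memP2 v' hv') hne hne'
    · -- the families for the remaining edges
      have k1 : ∀ v w, (∃ j, v = s j) → (∃ j, w = p j) → ¬ Cr (r l) v (p l) w := by
        rintro v w ⟨j, rfl⟩ ⟨i, rfl⟩ hc
        have h := hrp l j l i
        rcases pos_and_pos_or_neg_and_neg_of_mul_pos h with ⟨h1, h2⟩ | ⟨h1, h2⟩
        · exact nc_strict h1 h2 (det_self13 _ _).le (det_self23 _ _).le (Cr_symm hc)
        · exact nc_strict' h1 h2 (det_self13 _ _).ge (det_self23 _ _).ge (Cr_symm hc)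
      have k2 : ∀ v w, (∃ j, v = s j) → (∃ j, w = q j) → ¬ Cr (r l) v (q l) w := by
        rintro v w ⟨j, rfl⟩ ⟨i, rfl⟩ hc
        have h := hrq l j l i
        rcases pos_and_pos_or_neg_and_neg_of_mul_pos h with ⟨h1, h2⟩ | ⟨h1, h2⟩
        · exact nc_strict h1 h2 (det_self13 _ _).le (det_self23 _ _).le (Cr_symm hc)
        · exact nc_strict' h1 h2 (det_self13 _ _).ge (det_self23 _ _).ge (Cr_symm hc)
      have k3 : ∀ v w, (∃ j, v = p j) → (∃ j, w = q j) → ¬ Cr (p l) v (q l) w := by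
        rintro v w ⟨j, rfl⟩ ⟨i, rfl⟩
        exact nc_vert (hpq _ _) (hpq _ _) (hpq _ _) (hpq _ _)
      have mr : ∀ v, (∃ j, v = s j) → v ∈ P ∧ r l ≠ v := by
        rintro v ⟨j, rfl⟩; exact ⟨hs j, nrs l j⟩
      have mp : ∀ v, (∃ j, v = p j) → v ∈ P := by rintro v ⟨j, rfl⟩; exact hp j
      have mq : ∀ v, (∃ j, v = q j) → v ∈ P := by rintro v ⟨j, rfl⟩; exact hq j
      rintro u v u' v' (⟨rfl, hv⟩ | ⟨rfl, hne, hv⟩ | ⟨rfl, hne, hv⟩)
        (⟨rfl, hv'⟩ | ⟨rfl, hne', hv'⟩ | ⟨rfl, hne', hv'⟩)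
      · exact same_centre hP (hr l) (mr v hv).1 (mr v' hv').1 (mr v hv).2 (mr v' hv').2
      · right; exact k1 v v' hv hv'
      · right; exact k2 v v' hv hv'
      · right; exact fun hc => k1 v' v hv' hv (Cr_symm hc)
      · exact same_centre hP (hp l) (mp v hv) (mp v' hv') hne hne'
      · right; exact k3 v v' hv hv'
      · right; exact fun hc => k2 v' v hv' hv (Cr_symm hc)
      · right; exact fun hc => k3 v' v hv' hv (Cr_symm hc)
      · exact same_centre hP (hq l) (mq v hv) (mq v' hv') hne hne'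
  · intro u hu v hv huv
    rcases hU u hu with ⟨i, rfl⟩ | ⟨i, rfl⟩ | ⟨i, rfl⟩ | ⟨i, rfl⟩ <;>
    rcases hU v hv with ⟨j, rfl⟩ | ⟨j, rfl⟩ | ⟨j, rfl⟩ | ⟨j, rfl⟩
    · exact ⟨Sum.inr (Sum.inr i), Or.inl (Or.inr (Or.inl ⟨rfl, huv, j, rfl⟩))⟩
    · rcases le_or_gt i j with hij | hij
      · exact ⟨Sum.inl i, Or.inl (Or.inl ⟨rfl, Or.inl ⟨j, hij, rfl⟩⟩)⟩
      · exact ⟨Sum.inl j, Or.inr (Or.inr ⟨rfl, Or.inl ⟨i, hij, rfl⟩⟩)⟩
    · exact ⟨Sum.inl i, Or.inl (Or.inl ⟨rfl, Or.inr ⟨j, rfl⟩⟩)⟩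
    · exact ⟨Sum.inr (Sum.inl j), Or.inr (Or.inr ⟨rfl, huv.symm, Or.inl ⟨i, rfl⟩⟩)⟩
    · rcases le_or_gt j i with hij | hij
      · exact ⟨Sum.inl j, Or.inr (Or.inl ⟨rfl, Or.inl ⟨i, hij, rfl⟩⟩)⟩
      · exact ⟨Sum.inl i, Or.inl (Or.inr ⟨rfl, Or.inl ⟨j, hij, rfl⟩⟩)⟩
    · exact ⟨Sum.inr (Sum.inr i), Or.inl (Or.inr (Or.inr ⟨rfl, huv, j, rfl⟩))⟩
    · exact ⟨Sum.inr (Sum.inl j), Or.inr (Or.inl ⟨rfl, huv.symm, Or.inl ⟨i, rfl⟩⟩)⟩
    · exact ⟨Sum.inl i, Or.inl (Or.inr ⟨rfl, Or.inr ⟨j, rfl⟩⟩)⟩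
    · exact ⟨Sum.inl j, Or.inr (Or.inl ⟨rfl, Or.inr ⟨i, rfl⟩⟩)⟩
    · exact ⟨Sum.inr (Sum.inl i), Or.inl (Or.inl ⟨rfl, huv, Or.inl ⟨j, rfl⟩⟩)⟩
    · exact ⟨Sum.inr (Sum.inl i), Or.inl (Or.inl ⟨rfl, huv, Or.inr ⟨j, rfl⟩⟩)⟩
    · exact ⟨Sum.inr (Sum.inr i), Or.inl (Or.inl ⟨rfl, j, rfl⟩)⟩
    · exact ⟨Sum.inr (Sum.inl i), Or.inl (Or.inr ⟨rfl, huv, Or.inl ⟨j, rfl⟩⟩)⟩
    · exact ⟨Sum.inl j, Or.inr (Or.inr ⟨rfl, Or.inr ⟨i, rfl⟩⟩)⟩
    · exact ⟨Sum.inr (Sum.inr j), Or.inr (Or.inl ⟨rfl, i, rfl⟩)⟩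
    · exact ⟨Sum.inr (Sum.inl i), Or.inl (Or.inr ⟨rfl, huv, Or.inr ⟨j, rfl⟩⟩)⟩

end Pool.Agent.Helper60.CrossFree
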