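import Mathlib
import Pool.Agent.Helper60.CrossFree.Scheme

set_option autoImplicit false

namespace Pool.Agent.Helper60.CrossFree

/-- Ordering two `x`-separated sets by tangents (iterated minimal slope). -/
theorem tangent_order {P : Finset Pt} (hP : GP P) (m : ℕ) :
    ∀ A C : Finset Pt, A ⊆ P → C ⊆ P → A.card = m → C.card = m →
      (∀ a ∈ A, ∀ c ∈ C, a.1 < c.1) →
      ∃ p q : Fin m → Pt, (∀ i, p i ∈ A) ∧ (∀ i, q i ∈ C) ∧ (∀ x ∈ A, ∃ i, x = p i) ∧
        (∀ x ∈ C, ∃ i, x = q i) ∧ (∀ i j, i < j → 0 < det (p i) (q i) (q j)) ∧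
        (∀ i j, i < j → det (p i) (q i) (p j) < 0) := by
  classical
  induction m with
  | zero =>
    intro A C _ _ hA hC _
    rw [Finset.card_eq_zero] at hA hC
    subst hA; subst hC
    exact ⟨Fin.elim0, Fin.elim0, fun i => i.elim0, fun i => i.elim0, by simp, by simp,
      fun i => i.elim0, fun i => i.elim0⟩
  | succ m ih =>
    intro A C hAP hCP hA hC hx
    have hAne : A.Nonempty := Finset.card_pos.mp (by omega)
    have hCne : C.Nonempty := Finset.card_pos.mp (by omega)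
    obtain ⟨⟨a, c⟩, hac, hmin⟩ := Finset.exists_min_image (A ×ˢ C)
      (fun z => (z.2.2 - z.1.2) / (z.2.1 - z.1.1)) (hAne.product hCne)
    rw [Finset.mem_product] at hac
    obtain ⟨ha, hc⟩ := hac
    simp only at ha hc
    have hne : ∀ x ∈ A, ∀ y ∈ C, x ≠ y := fun x hx' y hy h => by
      have := hx x hx' y hy; rw [h] at this; exact lt_irrefl _ this
    have hq0 : ∀ y ∈ C.erase c, 0 < det a c y := by
      intro y hy
      rw [Finset.mem_erase] at hy
      have h1 := hmin (a, y) (Finset.mem_product.mpr ⟨ha, hy.2⟩)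
      simp only at h1
      have d1 : 0 < c.1 - a.1 := by linarith [hx a ha c hc]
      have d2 : 0 < y.1 - a.1 := by linarith [hx a ha y hy.2]
      rw [div_le_div_iff₀ d1 d2] at h1
      have h2 : 0 ≤ det a c y := by unfold det; linarith
      exact lt_of_le_of_ne h2 (Ne.symm (hP a (hAP ha) c (hCP hc) y (hCP hy.2) (hne a ha c hc)
        (hne a ha y hy.2) (Ne.symm hy.1)))
    have hp0 : ∀ x ∈ A.erase a, det a c x < 0 := by
      intro x hx'
      rw [Finset.mem_erase] at hx'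
      have h1 := hmin (x, c) (Finset.mem_product.mpr ⟨hx'.2, hc⟩)
      simp only at h1
      have d1 : 0 < c.1 - a.1 := by linarith [hx a ha c hc]
      have d2 : 0 < c.1 - x.1 := by linarith [hx x hx'.2 c hc]
      rw [div_le_div_iff₀ d1 d2] at h1
      have h2 : det a c x ≤ 0 := by unfold det; nlinarith
      exact lt_of_le_of_ne h2 (hP a (hAP ha) c (hCP hc) x (hAP hx'.2) (hne a ha c hc)
        (Ne.symm hx'.1) (Ne.symm (hne x hx'.2 c hc)))
    obtain ⟨p, q, h1, h2, h3, h4, h5, h6⟩ := ih (A.erase a) (C.erase c)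
      ((Finset.erase_subset _ _).trans hAP) ((Finset.erase_subset _ _).trans hCP)
      (by rw [Finset.card_erase_of_mem ha, hA]; rfl) (by rw [Finset.card_erase_of_mem hc, hC]; rfl)
      (fun x hx1 y hy1 => hx x (Finset.mem_of_mem_erase hx1) y (Finset.mem_of_mem_erase hy1))
    refine ⟨Fin.cons a p, Fin.cons c q, ?_, ?_, ?_, ?_, ?_, ?_⟩
    · intro i
      refine Fin.cases ?_ (fun i => ?_) i
      · exact ha
      · exact Finset.mem_of_mem_erase (h1 i)
    · intro i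
      refine Fin.cases ?_ (fun i => ?_) i
      · exact hc
      · exact Finset.mem_of_mem_erase (h2 i)
    · intro x hx'
      by_cases hxa : x = a
      · exact ⟨0, hxa⟩
      · obtain ⟨i, hi⟩ := h3 x (Finset.mem_erase.mpr ⟨hxa, hx'⟩)
        exact ⟨i.succ, hi⟩
    · intro x hx'
      by_cases hxa : x = c
      · exact ⟨0, hxa⟩
      · obtain ⟨i, hi⟩ := h4 x (Finset.mem_erase.mpr ⟨hxa, hx'⟩)
        exact ⟨i.succ, hi⟩
    · intro i j hij
      induction i using Fin.cases with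
      | zero =>
        induction j using Fin.cases with
        | zero => exact absurd hij (lt_irrefl _)
        | succ j => exact hq0 _ (h2 j)
      | succ i =>
        induction j using Fin.cases with
        | zero => exact absurd hij (by simp)
        | succ j => exact h5 i j (Fin.succ_lt_succ_iff.mp hij)
    · intro i j hij
      induction i using Fin.cases with
      | zero =>
        induction j using Fin.cases with
        | zero => exact absurd hij (lt_irrefl _)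
        | succ j => exact hp0 _ (h1 j)
      | succ i =>
        induction j using Fin.cases with
        | zero => exact absurd hij (by simp)
        | succ j => exact h6 i j (Fin.succ_lt_succ_iff.mp hij)

/-- all triples of `X × Y × Z` have the same orientation -/
def SS (X Y Z : Finset Pt) : Prop :=
  (∀ x ∈ X, ∀ y ∈ Y, ∀ z ∈ Z, 0 < det x y z) ∨ (∀ x ∈ X, ∀ y ∈ Y, ∀ z ∈ Z, det x y z < 0)

theorem SS.mono {X Y Z X' Y' Z' : Finset Pt} (h : SS X Y Z) (hX : X' ⊆ X) (hY : Y' ⊆ Y)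
    (hZ : Z' ⊆ Z) : SS X' Y' Z' := by
  rcases h with h | h
  · left; intro x hx y hy z hz; exact h x (hX hx) y (hY hy) z (hZ hz)
  · right; intro x hx y hy z hz; exact h x (hX hx) y (hY hy) z (hZ hz)

theorem SS.swap12 {X Y Z : Finset Pt} (h : SS X Y Z) : SS Y X Z := by
  rcases h with h | h
  · right; intro x hx y hy z hz; rw [det_swap12]; linarith [h y hy x hx z hz]
  · left; intro x hx y hy z hz; rw [det_swap12]; linarith [h y hy x hx z hz]

theorem SS.swap23 {X Y Z : Finset Pt} (h : SS X Y Z) : SS X Z Y := by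
  rcases h with h | h
  · right; intro x hx y hy z hz; rw [det_swap23]; linarith [h x hx z hz y hy]
  · left; intro x hx y hy z hz; rw [det_swap23]; linarith [h x hx z hz y hy]

theorem SS.mul_pos {X Y Z : Finset Pt} (h : SS X Y Z) {x y z z' : Pt} (hx : x ∈ X) (hy : y ∈ Y)
    (hz : z ∈ Z) (hz' : z' ∈ Z) : 0 < det x y z * det x y z' := by
  rcases h with h | h
  · exact _root_.mul_pos (h x hx y hy z hz) (h x hx y hy z' hz')
  · exact mul_pos_of_neg_of_neg (h x hx y hy z hz) (h x hx y hy z' hz')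

/-- enumeration of a finset of cardinality `m` -/
theorem enum {A : Finset Pt} {m : ℕ} (h : A.card = m) :
    ∃ f : Fin m → Pt, (∀ i, f i ∈ A) ∧ ∀ x ∈ A, ∃ i, x = f i := by
  subst h
  refine ⟨fun i => (A.equivFin.symm i : Pt), fun i => (A.equivFin.symm i).2, fun x hx => ?_⟩
  exact ⟨A.equivFin ⟨x, hx⟩, by simp⟩

/-- four clusters, `p q` separating `r` from `s` -/
theorem four_sep {m : ℕ} {P : Finset Pt} (hP : GP P) {p q r s : Finset Pt}
    (hp : p ⊆ P) (hq : q ⊆ P) (hr : r ⊆ P) (hs : s ⊆ P)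
    (cp : p.card = m) (cq : q.card = m) (cr : r.card = m) (cs : s.card = m)
    (hx : ∀ a ∈ p, ∀ c ∈ q, a.1 < c.1)
    (hR : ∀ x ∈ p, ∀ y ∈ q, ∀ z ∈ r, 0 < det x y z)
    (hS : ∀ x ∈ p, ∀ y ∈ q, ∀ z ∈ s, det x y z < 0)
    (hrp : SS r s p) (hrq : SS r s q) : Cov (p ∪ q ∪ r ∪ s) (3 * m) := by
  obtain ⟨a, b, h1, h2, h3, h4, h5, h6⟩ := tangent_order hP m p q hp hq cp cq hx
  obtain ⟨c, h7, h8⟩ := enum cr
  obtain ⟨d, h9, h10⟩ := enum cs
  refine scheme hP a b c d ?_ (fun i => hp (h1 i)) (fun i => hq (h2 i)) (fun i => hr (h7 i))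
    (fun i => hs (h9 i)) (fun i j => hx _ (h1 i) _ (h2 j)) h5 h6
    (fun i j k => hR _ (h1 i) _ (h2 j) _ (h7 k)) (fun i j k => hS _ (h1 i) _ (h2 j) _ (h9 k))
    (fun i j k l => hrp.mul_pos (h7 i) (h9 j) (h1 k) (h1 l))
    (fun i j k l => hrq.mul_pos (h7 i) (h9 j) (h2 k) (h2 l))
  intro x hx'
  simp only [Finset.mem_union] at hx'
  rcases hx' with ((h | h) | h) | h
  · exact Or.inl (h3 x h)
  · exact Or.inr (Or.inl (h4 x h))
  · exact Or.inr (Or.inr (Or.inl (h8 x h)))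
  · exact Or.inr (Or.inr (Or.inr (h10 x h)))

/-- four clusters, in the situation where `p q` separates `r` from `s` in one of the two ways -/
theorem four_sep' {m : ℕ} {P : Finset Pt} (hP : GP P) {p q r s : Finset Pt}
    (hp : p ⊆ P) (hq : q ⊆ P) (hr : r ⊆ P) (hs : s ⊆ P)
    (cp : p.card = m) (cq : q.card = m) (cr : r.card = m) (cs : s.card = m)
    (hx : ∀ a ∈ p, ∀ c ∈ q, a.1 < c.1)
    (h : ((∀ x ∈ p, ∀ y ∈ q, ∀ z ∈ r, 0 < det x y z) ∧
        (∀ x ∈ p, ∀ y ∈ q, ∀ z ∈ s, det x y z < 0)) ∨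
      ((∀ x ∈ p, ∀ y ∈ q, ∀ z ∈ r, det x y z < 0) ∧
        (∀ x ∈ p, ∀ y ∈ q, ∀ z ∈ s, 0 < det x y z)))
    (hrp : SS r s p) (hrq : SS r s q) : Cov (p ∪ q ∪ r ∪ s) (3 * m) := by
  rcases h with ⟨h1, h2⟩ | ⟨h1, h2⟩
  · exact four_sep hP hp hq hr hs cp cq cr cs hx h1 h2 hrp hrq
  · have := four_sep hP hp hq hs hr cp cq cs cr hx h2 h1 hrp.swap12 hrq.swap12
    rwa [Finset.union_right_comm] at this

theorem union_perm1 (A B C D : Finset Pt) : A ∪ D ∪ B ∪ C = A ∪ B ∪ C ∪ D := by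
  rw [Finset.union_right_comm A D B, Finset.union_right_comm (A ∪ B) D C]

theorem union_perm2 (A B C D : Finset Pt) : C ∪ D ∪ A ∪ B = A ∪ B ∪ C ∪ D := by
  rw [Finset.union_assoc (C ∪ D) A B, Finset.union_comm (C ∪ D) (A ∪ B), ← Finset.union_assoc]

theorem union_perm3 (A B C D : Finset Pt) : A ∪ C ∪ B ∪ D = A ∪ B ∪ C ∪ D := by
  rw [Finset.union_right_comm A C B]

/-- four `x`-separated clusters with constant orientation of all triples -/
theorem four_clusters {m : ℕ} {P : Finset Pt} (hP : GP P) {A B C D : Finset Pt}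
    (hA : A ⊆ P) (hB : B ⊆ P) (hC : C ⊆ P) (hD : D ⊆ P)
    (cA : A.card = m) (cB : B.card = m) (cC : C.card = m) (cD : D.card = m)
    (hAB : ∀ a ∈ A, ∀ c ∈ B, a.1 < c.1) (hAC : ∀ a ∈ A, ∀ c ∈ C, a.1 < c.1)
    (hAD : ∀ a ∈ A, ∀ c ∈ D, a.1 < c.1) (hCD : ∀ a ∈ C, ∀ c ∈ D, a.1 < c.1)
    (h123 : SS A B C) (h124 : SS A B D) (h134 : SS A C D) (h234 : SS B C D) :
    Cov (A ∪ B ∪ C ∪ D) (3 * m) := by
  have key14 : ((∀ x ∈ A, ∀ y ∈ B, ∀ z ∈ D, 0 < det x y z) ∧
      (∀ x ∈ A, ∀ y ∈ C, ∀ z ∈ D, det x y z < 0)) ∨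
      ((∀ x ∈ A, ∀ y ∈ B, ∀ z ∈ D, det x y z < 0) ∧
      (∀ x ∈ A, ∀ y ∈ C, ∀ z ∈ D, 0 < det x y z)) → Cov (A ∪ B ∪ C ∪ D) (3 * m) := by
    intro h
    have := four_sep' hP hA hD hB hC cA cD cB cC hAD
      (by
        rcases h with ⟨h1, h2⟩ | ⟨h1, h2⟩
        · right
          exact ⟨fun x hx y hy z hz => by rw [det_swap23]; linarith [h1 x hx z hz y hy],
            fun x hx y hy z hz => by rw [det_swap23]; linarith [h2 x hx z hz y hy]⟩
        · left
          exact ⟨fun x hx y hy z hz => by rw [det_swap23]; linarith [h1 x hx z hz y hy],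
            fun x hx y hy z hz => by rw [det_swap23]; linarith [h2 x hx z hz y hy]⟩)
      (h123.swap12.swap23) h234
    rwa [union_perm1] at this
  have key12 : ((∀ x ∈ A, ∀ y ∈ B, ∀ z ∈ C, 0 < det x y z) ∧
      (∀ x ∈ A, ∀ y ∈ B, ∀ z ∈ D, det x y z < 0)) ∨
      ((∀ x ∈ A, ∀ y ∈ B, ∀ z ∈ C, det x y z < 0) ∧
      (∀ x ∈ A, ∀ y ∈ B, ∀ z ∈ D, 0 < det x y z)) → Cov (A ∪ B ∪ C ∪ D) (3 * m) := by
    intro h
    exact four_sep' hP hA hB hC hD cA cB cC cD hAB h
      (h134.swap12.swap23) (h234.swap12.swap23)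
  have key34 : ((∀ x ∈ A, ∀ y ∈ C, ∀ z ∈ D, 0 < det x y z) ∧
      (∀ x ∈ B, ∀ y ∈ C, ∀ z ∈ D, det x y z < 0)) ∨
      ((∀ x ∈ A, ∀ y ∈ C, ∀ z ∈ D, det x y z < 0) ∧
      (∀ x ∈ B, ∀ y ∈ C, ∀ z ∈ D, 0 < det x y z)) → Cov (A ∪ B ∪ C ∪ D) (3 * m) := by
    intro h
    have := four_sep' hP hC hD hA hB cC cD cA cB hCD
      (by
        rcases h with ⟨h1, h2⟩ | ⟨h1, h2⟩
        · left
          exact ⟨fun x hx y hy z hz => by rw [det_rot z x y]; exact h1 z hz x hx y hy,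
            fun x hx y hy z hz => by rw [det_rot z x y]; exact h2 z hz x hx y hy⟩
        · right
          exact ⟨fun x hx y hy z hz => by rw [det_rot z x y]; exact h1 z hz x hx y hy,
            fun x hx y hy z hz => by rw [det_rot z x y]; exact h2 z hz x hx y hy⟩)
      h123 h124
    rwa [union_perm2] at this
  have key13 : ((∀ x ∈ A, ∀ y ∈ B, ∀ z ∈ C, 0 < det x y z) ∧
      (∀ x ∈ A, ∀ y ∈ C, ∀ z ∈ D, 0 < det x y z)) ∨
      ((∀ x ∈ A, ∀ y ∈ B, ∀ z ∈ C, det x y z < 0) ∧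
      (∀ x ∈ A, ∀ y ∈ C, ∀ z ∈ D, det x y z < 0)) → Cov (A ∪ B ∪ C ∪ D) (3 * m) := by
    intro h
    have := four_sep' hP hA hC hB hD cA cC cB cD hAC
      (by
        rcases h with ⟨h1, h2⟩ | ⟨h1, h2⟩
        · right
          exact ⟨fun x hx y hy z hz => by rw [det_swap23]; linarith [h1 x hx z hz y hy], h2⟩
        · left
          exact ⟨fun x hx y hy z hz => by rw [det_swap23]; linarith [h1 x hx z hz y hy], h2⟩)
      (h124.swap12.swap23) (h234.swap23)
    rwa [union_perm3] at this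
  rcases h123 with a | a <;> rcases h124 with b | b <;> rcases h134 with c | c <;>
    rcases h234 with d | d
  all_goals first
    | exact key14 (Or.inl ⟨b, c⟩)
    | exact key14 (Or.inr ⟨b, c⟩)
    | exact key12 (Or.inl ⟨a, b⟩)
    | exact key12 (Or.inr ⟨a, b⟩)
    | exact key34 (Or.inl ⟨c, d⟩)
    | exact key34 (Or.inr ⟨c, d⟩)
    | exact key13 (Or.inl ⟨a, c⟩)
    | exact key13 (Or.inr ⟨a, c⟩)

end Pool.Agent.Helper60.CrossFree
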