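import Mathlib
import Pool.Agent.Helper60.CrossFree.Tangent

set_option autoImplicit false

namespace Pool.Agent.Helper60.CrossFree

open Classical in
/-- points of `S` on or below the line `y = α x + β` -/
noncomputable def lo (S : Finset Pt) (α β : ℝ) : Finset Pt :=
  S.filter (fun p => p.2 - α * p.1 ≤ β)

open Classical in
/-- points of `S` on or above the line `y = α x + β` -/
noncomputable def hi (S : Finset Pt) (α β : ℝ) : Finset Pt :=
  S.filter (fun p => β ≤ p.2 - α * p.1)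

theorem mem_lo {S : Finset Pt} {α β : ℝ} {p : Pt} :
    p ∈ lo S α β ↔ p ∈ S ∧ p.2 - α * p.1 ≤ β := by simp [lo]

theorem mem_hi {S : Finset Pt} {α β : ℝ} {p : Pt} :
    p ∈ hi S α β ↔ p ∈ S ∧ β ≤ p.2 - α * p.1 := by simp [hi]

theorem lo_subset (S : Finset Pt) (α β : ℝ) : lo S α β ⊆ S := Finset.filter_subset _ _
theorem hi_subset (S : Finset Pt) (α β : ℝ) : hi S α β ⊆ S := Finset.filter_subset _ _

theorem lo_mono {S : Finset Pt} {α β β' : ℝ} (h : β ≤ β') : lo S α β ⊆ lo S α β' := by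
  intro p hp
  rw [mem_lo] at hp ⊢
  exact ⟨hp.1, hp.2.trans h⟩

theorem exists_med (S : Finset Pt) (hS : S.Nonempty) (α : ℝ) :
    ∃ b : ℝ, (∀ β, S.card ≤ 2 * (lo S α β).card ↔ b ≤ β) ∧ S.card ≤ 2 * (hi S α b).card := by
  classical
  set v : Pt → ℝ := fun p => p.2 - α * p.1 with hv
  set F := (S.image v).filter (fun b => S.card ≤ 2 * (lo S α b).card) with hF
  have hmaxF : ∀ T : Finset Pt, T ⊆ S → T.Nonempty → S.card ≤ 2 * T.card →
      ∃ b ∈ F, ∃ p ∈ T, v p = b ∧ ∀ q ∈ T, v q ≤ b := by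
    intro T hT hTne hc
    obtain ⟨p, hp, hmax⟩ := Finset.exists_max_image T v hTne
    refine ⟨v p, ?_, p, hp, rfl, hmax⟩
    rw [hF, Finset.mem_filter]
    refine ⟨Finset.mem_image_of_mem _ (hT hp), hc.trans ?_⟩
    have : T ⊆ lo S α (v p) := fun q hq => mem_lo.mpr ⟨hT hq, hmax q hq⟩
    have := Finset.card_le_card this
    omega
  have hFne : F.Nonempty := by
    obtain ⟨b, hb, -⟩ := hmaxF S (Finset.Subset.refl _) hS (by omega)
    exact ⟨b, hb⟩
  have hcardpos : 0 < S.card := Finset.card_pos.mpr hS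
  have hiff : ∀ β, S.card ≤ 2 * (lo S α β).card ↔ F.min' hFne ≤ β := by
    intro β
    constructor
    · intro h
      have hne : (lo S α β).Nonempty := Finset.card_pos.mp (by omega)
      obtain ⟨b, hb, p, hp, hpb, -⟩ := hmaxF (lo S α β) (lo_subset _ _ _) hne h
      have h1 := Finset.min'_le F b hb
      have h2 : v p ≤ β := (mem_lo.mp hp).2
      linarith
    · intro h
      have h1 := Finset.min'_mem F hFne
      have h3 : S.card ≤ 2 * (lo S α (F.min' hFne)).card := (Finset.mem_filter.mp h1).2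
      have h2 := Finset.card_le_card (lo_mono (S := S) (α := α) h)
      omega
  refine ⟨F.min' hFne, hiff, ?_⟩
  by_contra hcon
  push Not at hcon
  set b := F.min' hFne
  set T := S \ hi S α b with hT
  have hTc : T.card = S.card - (hi S α b).card := Finset.card_sdiff_of_subset (hi_subset _ _ _)
  have hTne : T.Nonempty := Finset.card_pos.mp (by omega)
  obtain ⟨b', hb', p, hp, hpb, -⟩ := hmaxF T (Finset.sdiff_subset) hTne (by omega)
  have h1 : v p < b := by
    rw [hT, Finset.mem_sdiff, mem_hi, not_and, not_le] at hp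
    exact hp.2 hp.1
  have h2 := Finset.min'_le F b' hb'
  linarith

/-- the lower median of `S` in direction `α` -/
noncomputable def med (S : Finset Pt) (hS : S.Nonempty) (α : ℝ) : ℝ := (exists_med S hS α).choose

theorem med_iff (S : Finset Pt) (hS : S.Nonempty) (α β : ℝ) :
    S.card ≤ 2 * (lo S α β).card ↔ med S hS α ≤ β := (exists_med S hS α).choose_spec.1 β

theorem med_hi (S : Finset Pt) (hS : S.Nonempty) (α : ℝ) :
    S.card ≤ 2 * (hi S α (med S hS α)).card := (exists_med S hS α).choose_spec.2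

theorem med_lo (S : Finset Pt) (hS : S.Nonempty) (α : ℝ) :
    S.card ≤ 2 * (lo S α (med S hS α)).card := (med_iff S hS α _).mpr le_rfl

theorem med_lip (S : Finset Pt) (hS : S.Nonempty) (M : ℝ) (hM : ∀ p ∈ S, |p.1| ≤ M) (α α' : ℝ) :
    med S hS α' ≤ med S hS α + M * |α - α'| := by
  rw [← med_iff]
  refine (med_lo S hS α).trans ?_
  have : lo S α (med S hS α) ⊆ lo S α' (med S hS α + M * |α - α'|) := by
    intro p hp
    rw [mem_lo] at hp ⊢
    refine ⟨hp.1, ?_⟩
    have h1 : (α - α') * p.1 ≤ |α - α'| * M := by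
      calc (α - α') * p.1 ≤ |(α - α') * p.1| := le_abs_self _
        _ = |α - α'| * |p.1| := abs_mul _ _
        _ ≤ |α - α'| * M := mul_le_mul_of_nonneg_left (hM p hp.1) (abs_nonneg _)
    nlinarith [hp.2]
  have := Finset.card_le_card this
  omega

theorem med_continuous (S : Finset Pt) (hS : S.Nonempty) : Continuous (med S hS) := by
  obtain ⟨p0, hp0, hmax⟩ := Finset.exists_max_image S (fun p => |p.1|) hS
  set M := |p0.1| with hM
  have hM0 : 0 ≤ M := abs_nonneg _
  have : LipschitzWith (Real.toNNReal M) (med S hS) := by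
    apply LipschitzWith.of_dist_le_mul
    intro x y
    rw [Real.dist_eq, Real.dist_eq, Real.coe_toNNReal M hM0]
    have h1 := med_lip S hS M hmax x y
    have h2 := med_lip S hS M hmax y x
    rw [abs_sub_comm y x] at h2
    rw [abs_le]
    constructor <;> linarith
  exact this.continuous

/-- simultaneous bisection of two `x`-separated finite sets by a line -/
theorem ham_sandwich (X Z : Finset Pt) (hX : X.Nonempty) (hZ : Z.Nonempty)
    (hxz : ∀ p ∈ X, ∀ q ∈ Z, p.1 < q.1) :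
    ∃ α β : ℝ, X.card ≤ 2 * (lo X α β).card ∧ X.card ≤ 2 * (hi X α β).card ∧
      Z.card ≤ 2 * (lo Z α β).card ∧ Z.card ≤ 2 * (hi Z α β).card := by
  have key : ∃ α, med X hX α = med Z hZ α := by
    have hcont : Continuous (fun α => med X hX α - med Z hZ α) :=
      (med_continuous X hX).sub (med_continuous Z hZ)
    have h1 : ∃ a, med X hX a - med Z hZ a ≤ 0 := by
      obtain ⟨z, hz, hmin⟩ := Finset.exists_min_image (X ×ˢ Z)
        (fun z => (z.2.2 - z.1.2) / (z.2.1 - z.1.1)) (hX.product hZ)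
      refine ⟨(z.2.2 - z.1.2) / (z.2.1 - z.1.1), ?_⟩
      set a := (z.2.2 - z.1.2) / (z.2.1 - z.1.1)
      rw [sub_nonpos, ← med_iff]
      have h2 := med_lo Z hZ a
      have h3 : 0 < Z.card := Finset.card_pos.mpr hZ
      obtain ⟨q, hq⟩ : (lo Z a (med Z hZ a)).Nonempty := Finset.card_pos.mp (by omega)
      rw [mem_lo] at hq
      have h4 : lo X a (med Z hZ a) = X := by
        apply Finset.Subset.antisymm (lo_subset _ _ _)
        intro p hp
        rw [mem_lo]
        refine ⟨hp, ?_⟩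
        have h5 := hmin (p, q) (Finset.mem_product.mpr ⟨hp, hq.1⟩)
        simp only at h5
        have h6 : 0 < q.1 - p.1 := by linarith [hxz p hp q hq.1]
        rw [le_div_iff₀ h6] at h5
        nlinarith [hq.2]
      rw [h4]; omega
    have h2 : ∃ a, 0 ≤ med X hX a - med Z hZ a := by
      obtain ⟨z, hz, hmax⟩ := Finset.exists_max_image (X ×ˢ Z)
        (fun z => (z.2.2 - z.1.2) / (z.2.1 - z.1.1)) (hX.product hZ)
      refine ⟨(z.2.2 - z.1.2) / (z.2.1 - z.1.1), ?_⟩
      set a := (z.2.2 - z.1.2) / (z.2.1 - z.1.1)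
      rw [sub_nonneg, ← med_iff]
      have h2 := med_lo X hX a
      have h3 : 0 < X.card := Finset.card_pos.mpr hX
      obtain ⟨p, hp⟩ : (lo X a (med X hX a)).Nonempty := Finset.card_pos.mp (by omega)
      rw [mem_lo] at hp
      have h4 : lo Z a (med X hX a) = Z := by
        apply Finset.Subset.antisymm (lo_subset _ _ _)
        intro q hq
        rw [mem_lo]
        refine ⟨hq, ?_⟩
        have h5 := hmax (p, q) (Finset.mem_product.mpr ⟨hp.1, hq⟩)
        simp only at h5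
        have h6 : 0 < q.1 - p.1 := by linarith [hxz p hp.1 q hq]
        rw [div_le_iff₀ h6] at h5
        nlinarith [hp.2]
      rw [h4]; omega
    obtain ⟨α, hα⟩ := mem_range_of_exists_le_of_exists_ge hcont h1 h2
    exact ⟨α, by simpa [sub_eq_zero] using hα⟩
  obtain ⟨α, hα⟩ := key
  refine ⟨α, med X hX α, med_lo X hX α, med_hi X hX α, ?_, ?_⟩
  · rw [hα]; exact med_lo Z hZ α
  · rw [hα]; exact med_hi Z hZ α

/-- halving three `x`-separated sets to get constant orientation -/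
theorem refine3 {P : Finset Pt} (hP : GP P) (X Y Z : Finset Pt) (hXP : X ⊆ P) (hYP : Y ⊆ P)
    (hZP : Z ⊆ P) (hX : X.Nonempty) (hZ : Z.Nonempty)
    (hxy : ∀ p ∈ X, ∀ q ∈ Y, p.1 < q.1) (hyz : ∀ p ∈ Y, ∀ q ∈ Z, p.1 < q.1)
    (hxz : ∀ p ∈ X, ∀ q ∈ Z, p.1 < q.1) :
    ∃ X' Y' Z', X' ⊆ X ∧ Y' ⊆ Y ∧ Z' ⊆ Z ∧ X.card ≤ 2 * X'.card ∧ Y.card ≤ 2 * Y'.card ∧
      Z.card ≤ 2 * Z'.card ∧ SS X' Y' Z' := by
  obtain ⟨α, β, h1, h2, h3, h4⟩ := ham_sandwich X Z hX hZ hxz
  have hdet : ∀ x y z : Pt, det x y z = (z.1 - y.1) * (x.2 - α * x.1 - β) +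
      (y.1 - x.1) * (z.2 - α * z.1 - β) - (z.1 - x.1) * (y.2 - α * y.1 - β) := by
    intro x y z; unfold det; ring
  have hne : ∀ x ∈ X, ∀ y ∈ Y, ∀ z ∈ Z, det x y z ≠ 0 := by
    intro x hx y hy z hz
    refine hP x (hXP hx) y (hYP hy) z (hZP hz) ?_ ?_ ?_
    · rintro rfl; exact lt_irrefl _ (hxy _ hx _ hy)
    · rintro rfl; exact lt_irrefl _ (hxz _ hx _ hz)
    · rintro rfl; exact lt_irrefl _ (hyz _ hy _ hz)
  have hY : Y.card ≤ (lo Y α β).card + (hi Y α β).card := by
    have : Y ⊆ lo Y α β ∪ hi Y α β := by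
      intro y hy
      rw [Finset.mem_union, mem_lo, mem_hi]
      rcases le_total (y.2 - α * y.1) β with h | h
      · exact Or.inl ⟨hy, h⟩
      · exact Or.inr ⟨hy, h⟩
    exact (Finset.card_le_card this).trans (Finset.card_union_le _ _)
  rcases Nat.lt_or_ge (2 * (hi Y α β).card) Y.card with h | h
  · -- most of `Y` is below
    refine ⟨hi X α β, lo Y α β, hi Z α β, hi_subset _ _ _, lo_subset _ _ _, hi_subset _ _ _,
      h2, by omega, h4, Or.inl ?_⟩
    intro x hx y hy z hz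
    rw [mem_hi] at hx hz
    rw [mem_lo] at hy
    refine lt_of_le_of_ne ?_ (hne x hx.1 y hy.1 z hz.1).symm
    rw [hdet]
    have a1 : 0 ≤ (z.1 - y.1) * (x.2 - α * x.1 - β) :=
      mul_nonneg (by linarith [hyz y hy.1 z hz.1]) (by linarith [hx.2])
    have a2 : 0 ≤ (y.1 - x.1) * (z.2 - α * z.1 - β) :=
      mul_nonneg (by linarith [hxy x hx.1 y hy.1]) (by linarith [hz.2])
    have a3 : (z.1 - x.1) * (y.2 - α * y.1 - β) ≤ 0 :=
      mul_nonpos_of_nonneg_of_nonpos (by linarith [hxz x hx.1 z hz.1]) (by linarith [hy.2])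
    linarith
  · refine ⟨lo X α β, hi Y α β, lo Z α β, lo_subset _ _ _, hi_subset _ _ _, lo_subset _ _ _,
      h1, h, h3, Or.inr ?_⟩
    intro x hx y hy z hz
    rw [mem_lo] at hx hz
    rw [mem_hi] at hy
    refine lt_of_le_of_ne ?_ (hne x hx.1 y hy.1 z hz.1)
    rw [hdet]
    have a1 : (z.1 - y.1) * (x.2 - α * x.1 - β) ≤ 0 :=
      mul_nonpos_of_nonneg_of_nonpos (by linarith [hyz y hy.1 z hz.1]) (by linarith [hx.2])
    have a2 : (y.1 - x.1) * (z.2 - α * z.1 - β) ≤ 0 :=
      mul_nonpos_of_nonneg_of_nonpos (by linarith [hxy x hx.1 y hy.1]) (by linarith [hz.2])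
    have a3 : 0 ≤ (z.1 - x.1) * (y.2 - α * y.1 - β) :=
      mul_nonneg (by linarith [hxz x hx.1 z hz.1]) (by linarith [hy.2])
    linarith

end Pool.Agent.Helper60.CrossFree
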