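import Mathlib
import Pool.Agent.Helper60.CrossFree.Ham

set_option autoImplicit false

namespace Pool.Agent.Helper60.CrossFree

theorem low_part (S : Finset Pt) (k : ℕ) (hk : k ≤ S.card) :
    ∃ T ⊆ S, T.card = k ∧ ∀ t ∈ T, ∀ u ∈ S \ T, t.1 ≤ u.1 := by
  classical
  induction k with
  | zero => exact ⟨∅, by simp, by simp, by simp⟩
  | succ k ih =>
    obtain ⟨T, hT, hTc, hTl⟩ := ih (by omega)
    have hne : (S \ T).Nonempty := by
      apply Finset.card_pos.mp
      rw [Finset.card_sdiff_of_subset hT]; omega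
    obtain ⟨u0, hu0, hmin⟩ := Finset.exists_min_image (S \ T) (fun p => p.1) hne
    rw [Finset.mem_sdiff] at hu0
    refine ⟨insert u0 T, Finset.insert_subset hu0.1 hT, ?_, ?_⟩
    · rw [Finset.card_insert_of_notMem hu0.2, hTc]
    · intro t ht u hu
      rw [Finset.mem_sdiff, Finset.mem_insert, not_or] at hu
      have hu' : u ∈ S \ T := Finset.mem_sdiff.mpr ⟨hu.1, hu.2.2⟩
      rcases Finset.mem_insert.mp ht with rfl | ht
      · exact hmin u hu'
      · exact hTl t ht u hu'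

theorem low_strict {P : Finset Pt} (hP : GP P) (S : Finset Pt) (hS : S ⊆ P) (k : ℕ)
    (hk : k + 1 ≤ S.card) :
    ∃ T R, T ⊆ S ∧ R ⊆ S ∧ T.card = k ∧ R.card = S.card - k - 1 ∧
      ∀ t ∈ T, ∀ u ∈ R, t.1 < u.1 := by
  classical
  obtain ⟨T, hT, hTc, hTl⟩ := low_part S k (by omega)
  have hne : (S \ T).Nonempty := by
    apply Finset.card_pos.mp
    rw [Finset.card_sdiff_of_subset hT]; omega
  obtain ⟨u0, hu0, hmin⟩ := Finset.exists_min_image (S \ T) (fun p => p.1) hne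
  refine ⟨T, (S \ T).erase u0, hT, ?_, hTc, ?_, ?_⟩
  · exact (Finset.erase_subset _ _).trans Finset.sdiff_subset
  · rw [Finset.card_erase_of_mem hu0, Finset.card_sdiff_of_subset hT, hTc]
  · intro t ht u hu
    rw [Finset.mem_erase] at hu
    have h1 := hTl t ht u0 hu0
    have h2 := hmin u hu.2
    rw [Finset.mem_sdiff] at hu0
    have hu2 := Finset.mem_sdiff.mp hu.2
    refine lt_of_le_of_ne (h1.trans h2) ?_
    intro heq
    have e1 : t.1 = u0.1 := le_antisymm h1 (by rw [heq]; exact h2)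
    have e2 : u0.1 = u.1 := e1.symm.trans heq
    refine hP t (hS (hT ht)) u0 (hS hu0.1) u (hS hu2.1) ?_ ?_ ?_ ?_
    · rintro rfl; exact hu0.2 ht
    · rintro rfl; exact hu2.2 ht
    · exact fun h => hu.1 h.symm
    · unfold det; rw [e1, e2]; ring

/-- The main covering theorem. -/
theorem cov_main {P : Finset Pt} (hP : GP P) (m : ℕ) (hm : 32 * m + 3 ≤ P.card) :
    Cov P (P.card - m) := by
  classical
  rcases Nat.eq_zero_or_pos m with rfl | hm0
  · have h0 : Cov (∅ : Finset Pt) 0 := ⟨Fin.elim0, fun i => i.elim0, by simp⟩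
    have := Cov_extend hP (Finset.empty_subset P) h0
    simpa using this
  obtain ⟨A, R1, hA, hR1, cA, cR1, x1⟩ := low_strict hP P (Finset.Subset.refl _) (8 * m) (by omega)
  obtain ⟨B, R2, hB, hR2, cB, cR2, x2⟩ := low_strict hP R1 hR1 (8 * m) (by omega)
  obtain ⟨C, R3, hC, hR3, cC, cR3, x3⟩ := low_strict hP R2 (hR2.trans hR1) (8 * m) (by omega)
  have hB' := hB.trans hR1
  have hR2' := hR2.trans hR1
  have hC' := hC.trans hR2'
  have hR3' := hR3.trans hR2'
  have xAB : ∀ p ∈ A, ∀ q ∈ B, p.1 < q.1 := fun p hp q hq => x1 p hp q (hB hq)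
  have xAC : ∀ p ∈ A, ∀ q ∈ C, p.1 < q.1 := fun p hp q hq => x1 p hp q (hR2 (hC hq))
  have xAD : ∀ p ∈ A, ∀ q ∈ R3, p.1 < q.1 := fun p hp q hq => x1 p hp q (hR2 (hR3 hq))
  have xBC : ∀ p ∈ B, ∀ q ∈ C, p.1 < q.1 := fun p hp q hq => x2 p hp q (hC hq)
  have xBD : ∀ p ∈ B, ∀ q ∈ R3, p.1 < q.1 := fun p hp q hq => x2 p hp q (hR3 hq)
  have xCD : ∀ p ∈ C, ∀ q ∈ R3, p.1 < q.1 := x3
  have ne : ∀ {T : Finset Pt}, 0 < T.card → T.Nonempty := fun h => Finset.card_pos.mp h
  -- triple 123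
  obtain ⟨A1, B1, C1, sA1, sB1, sC1, dA1, dB1, dC1, h123⟩ :=
    refine3 hP A B C hA hB' hC' (ne (by omega)) (ne (by omega)) xAB xBC xAC
  -- triple 124
  obtain ⟨A2, B2, D1, sA2, sB2, sD1, dA2, dB2, dD1, h124⟩ :=
    refine3 hP A1 B1 R3 (sA1.trans hA) (sB1.trans hB') hR3' (ne (by omega)) (ne (by omega))
      (fun p hp q hq => xAB p (sA1 hp) q (sB1 hq)) (fun p hp q hq => xBD p (sB1 hp) q hq)
      (fun p hp q hq => xAD p (sA1 hp) q hq)
  have tA2 := sA2.trans sA1
  have tB2 := sB2.trans sB1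
  -- triple 134
  obtain ⟨A3, C2, D2, sA3, sC2, sD2, dA3, dC2, dD2, h134⟩ :=
    refine3 hP A2 C1 D1 (tA2.trans hA) (sC1.trans hC') (sD1.trans hR3') (ne (by omega))
      (ne (by omega))
      (fun p hp q hq => xAC p (tA2 hp) q (sC1 hq))
      (fun p hp q hq => xCD p (sC1 hp) q (sD1 hq))
      (fun p hp q hq => xAD p (tA2 hp) q (sD1 hq))
  have tC2 := sC2.trans sC1
  have tD2 := sD2.trans sD1
  -- triple 234
  obtain ⟨B3, C3, D3, sB3, sC3, sD3, dB3, dC3, dD3, h234⟩ :=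
    refine3 hP B2 C2 D2 (tB2.trans hB') (tC2.trans hC') (tD2.trans hR3') (ne (by omega))
      (ne (by omega))
      (fun p hp q hq => xBC p (tB2 hp) q (tC2 hq))
      (fun p hp q hq => xCD p (tC2 hp) q (tD2 hq))
      (fun p hp q hq => xBD p (tB2 hp) q (tD2 hq))
  obtain ⟨A4, sA4, cA4⟩ := Finset.exists_subset_card_eq (s := A3) (n := m) (by omega)
  obtain ⟨B4, sB4, cB4⟩ := Finset.exists_subset_card_eq (s := B3) (n := m) (by omega)
  obtain ⟨C4, sC4, cC4⟩ := Finset.exists_subset_card_eq (s := C3) (n := m) (by omega)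
  obtain ⟨D4, sD4, cD4⟩ := Finset.exists_subset_card_eq (s := D3) (n := m) (by omega)
  have uA : A4 ⊆ A := (sA4.trans sA3).trans tA2
  have uB : B4 ⊆ B := (sB4.trans sB3).trans tB2
  have uC : C4 ⊆ C := (sC4.trans sC3).trans tC2
  have uD : D4 ⊆ R3 := (sD4.trans sD3).trans tD2
  have hcov := four_clusters hP (uA.trans hA) (uB.trans hB') (uC.trans hC') (uD.trans hR3')
    cA4 cB4 cC4 cD4
    (fun p hp q hq => xAB p (uA hp) q (uB hq)) (fun p hp q hq => xAC p (uA hp) q (uC hq))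
    (fun p hp q hq => xAD p (uA hp) q (uD hq)) (fun p hp q hq => xCD p (uC hp) q (uD hq))
    (h123.mono (sA4.trans (sA3.trans sA2)) (sB4.trans (sB3.trans sB2)) (sC4.trans (sC3.trans sC2)))
    (h124.mono (sA4.trans sA3) (sB4.trans sB3) (sD4.trans (sD3.trans sD2)))
    (h134.mono sA4 (sC4.trans sC3) (sD4.trans sD3))
    (h234.mono sB4 sC4 sD4)
  have hsub : A4 ∪ B4 ∪ C4 ∪ D4 ⊆ P :=
    Finset.union_subset (Finset.union_subset (Finset.union_subset (uA.trans hA) (uB.trans hB'))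
      (uC.trans hC')) (uD.trans hR3')
  have hdisj : ∀ {S T : Finset Pt}, (∀ p ∈ S, ∀ q ∈ T, p.1 < q.1) → Disjoint S T := by
    intro S T h
    rw [Finset.disjoint_left]
    intro x hx hx'
    exact lt_irrefl _ (h x hx x hx')
  have hcard : (A4 ∪ B4 ∪ C4 ∪ D4).card = 4 * m := by
    rw [Finset.card_union_of_disjoint, Finset.card_union_of_disjoint,
      Finset.card_union_of_disjoint, cA4, cB4, cC4, cD4]
    · ring
    · exact hdisj (fun p hp q hq => xAB p (uA hp) q (uB hq))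
    · rw [Finset.disjoint_union_left]
      exact ⟨hdisj (fun p hp q hq => xAC p (uA hp) q (uC hq)),
        hdisj (fun p hp q hq => xBC p (uB hp) q (uC hq))⟩
    · rw [Finset.disjoint_union_left, Finset.disjoint_union_left]
      exact ⟨⟨hdisj (fun p hp q hq => xAD p (uA hp) q (uD hq)),
        hdisj (fun p hp q hq => xBD p (uB hp) q (uD hq))⟩,
        hdisj (fun p hp q hq => xCD p (uC hp) q (uD hq))⟩
  have := Cov_extend hP hsub hcov
  rw [hcard] at this
  have e : 3 * m + (P.card - 4 * m) = P.card - m := by omega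
  rwa [e] at this

theorem cov_trivial {P : Finset Pt} (hP : GP P) (hne : P.Nonempty) : Cov P (P.card - 1) := by
  obtain ⟨x, hx⟩ := hne
  have h0 : Cov ({x} : Finset Pt) 0 := by
    refine ⟨Fin.elim0, fun i => i.elim0, ?_⟩
    intro u hu v hv huv
    rw [Finset.mem_singleton] at hu hv
    exact absurd (hu.trans hv.symm) huv
  have := Cov_extend hP (Finset.singleton_subset_iff.mpr hx) h0
  simpa using this

end Pool.Agent.Helper60.CrossFree
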